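import Pool.Agent.helper52.WP.SpecC

/-!
# Module wp:CB1 (project wp:, part C): algebra of one datum
-/

set_option autoImplicit false

open Complex Metric Set Filter Topology MeasureTheory
open V3S (UF)
open WP

noncomputable section

namespace WPC

theorem CB1_diff (f : Polynomial ℂ) (j : ℕ) : Differentiable ℂ (it f j) := by
  have h : it f j = (fun z : ℂ => f.eval z)^[j] := by
    funext z
    rfl
  rw [h]
  exact f.differentiable.iterate j

theorem CB1_add (f : Polynomial ℂ) (i j : ℕ) (z : ℂ) : it f (i + j) z = it f i (it f j z) := by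
  unfold it
  rw [Function.iterate_add_apply]

theorem CB1 : CB1_stmt := by
  intro D hR
  have hsg : D.sg ≠ 0 := by
    unfold Dat.sg
    exact_mod_cast hR.ne'
  have hsn : ‖D.sg‖ = D.ρ := by
    unfold Dat.sg
    rw [Complex.norm_real, Real.norm_eq_abs, abs_of_pos hR]
  have hxz : ∀ x, D.xx (D.zz x) = x := by
    intro x
    unfold Dat.xx Dat.zz
    rw [add_sub_cancel_left, mul_div_cancel_left₀ _ hsg]
  have hzx : ∀ z, D.zz (D.xx z) = z := by
    intro z
    unfold Dat.xx Dat.zz
    rw [mul_div_cancel₀ _ hsg]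
    ring
  have hF0 : ∀ x, D.F 0 x = x := by
    intro x
    unfold Dat.F it
    rw [Function.iterate_zero]
    exact hxz x
  have hzF : ∀ j x, D.zz (D.F j x) = it D.f j (D.zz x) := by
    intro j x
    unfold Dat.F
    exact hzx _
  have hFF : ∀ i j x, D.F (i + j) x = D.F i (D.F j x) := by
    intro i j x
    show D.xx (it D.f (i + j) (D.zz x)) = D.xx (it D.f i (D.zz (D.F j x)))
    rw [hzF, CB1_add]
  have hder : ∀ j x, HasDerivAt (D.F j) (deriv (it D.f j) (D.zz x)) x := by
    intro j x
    have h1 : HasDerivAt D.zz D.sg x := by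
      have h2 := ((hasDerivAt_id x).const_mul D.sg).const_add D.w
      rw [mul_one] at h2
      exact h2
    have h2 : HasDerivAt (it D.f j) (deriv (it D.f j) (D.zz x)) (D.zz x) :=
      (CB1_diff D.f j).differentiableAt.hasDerivAt
    have h3 : HasDerivAt D.xx (1 / D.sg) (it D.f j (D.zz x)) :=
      ((hasDerivAt_id _).sub_const D.w).div_const D.sg
    have h4 := h3.comp x (h2.comp x h1)
    have h5 : 1 / D.sg * (deriv (it D.f j) (D.zz x) * D.sg) = deriv (it D.f j) (D.zz x) := by
      field_simp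
    rw [h5] at h4
    exact h4
  have hdF : ∀ j, Differentiable ℂ (D.F j) := fun j x => (hder j x).differentiableAt
  have hpF : ∀ (i : Fin 3) (j l : ℕ), D.F l (D.p i j) = D.p i (l + j) := by
    intro i j l
    unfold Dat.p
    rw [hFF]
  have hinj : ∀ x y, D.zz x = D.zz y → x = y := by
    intro x y h
    rw [← hxz x, ← hxz y, h]
  have hPP : ∀ x, D.zz x ∈ D.PP ↔ ∃ i : Fin 3, ∃ j < D.k, x = D.p i j := by
    intro x
    constructor
    · rintro ⟨i, j, hj, h⟩
      exact ⟨i, j, hj, hinj _ _ h⟩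
    · rintro ⟨i, j, hj, h⟩
      exact ⟨i, j, hj, by rw [h]⟩
  refine ⟨hsg, hsn, hxz, hzx, hF0, hFF, hdF, ?_, fun j x => (hder j x).deriv, hzF, hpF, ?_, ?_,
    hPP, ?_, ?_⟩
  · intro i j x
    have h1 : D.F (i + j) = D.F i ∘ D.F j := by
      funext y
      exact hFF i j y
    rw [h1]
    exact deriv_comp _ (hdF i).differentiableAt (hdF j).differentiableAt
  · intro i
    unfold Dat.p
    exact hF0 _
  · intro x
    unfold Dat.B Dat.H Dat.H0
    rw [hxz]
    field_simp
  · intro x hx hz
    apply hx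
    obtain ⟨i, j, hj, h⟩ := (hPP x).1 hz
    exact ⟨i, j, by omega, h⟩
  · rintro z ⟨i, j, hj, rfl⟩ q hq
    refine ⟨i, q + j, by omega, ?_⟩
    have h1 : (fun y : ℂ => D.f.eval y)^[q] (D.zz (D.p i j)) = D.zz (D.F q (D.p i j)) := by
      rw [hzF]
      rfl
    rw [h1, hxz, hpF]

end WPC
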