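import Pool.Agent.helper52.WP.SpecA

/-!
# Module wp:SMC (project wp:, part A): change to the smallest cell [W+, 4]
-/

set_option autoImplicit false

open Complex Metric Set Filter Topology MeasureTheory
open V3S (UF)
open WP

noncomputable section

namespace WPA

theorem SMC (hITB : ITB_stmt) (hKO0 : V3.KO0_stmt) (hKO1 : V3.KO1_stmt) (hKO3 : V3.KO3_stmt) : SMC_stmt := by
  intro c₀ hc₀ hc₁
  obtain ⟨K1, hK1, H1⟩ := hKO1
  obtain ⟨K3, hK3, H3⟩ := hKO3 (1 / 2) (by norm_num) (by norm_num)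
  set K : ℝ := max K1 K3 with hKdef
  have hK1K : K1 ≤ K := le_max_left _ _
  have hK3K : K3 ≤ K := le_max_right _ _
  have hK : 1 ≤ K := hK1.trans hK1K
  have hKpos : 0 < K := by linarith
  refine ⟨64 * K ^ 2 / c₀, ?_, ?_⟩
  · rw [le_div_iff₀ hc₀]
    nlinarith [sq_nonneg (K - 1)]
  intro ε' hε'
  refine ⟨min (min (c₀ / 4) (1 / 128)) (min (1 / (4 * K)) (c₀ * ε' / (8 * K ^ 3))), by positivity, ?_⟩
  intro f δ ε₁ ε k w ρ hB hε₁ hdj
  have hεa : ε ≤ c₀ / 4 := (hB.e1.trans hε₁).trans ((min_le_left _ _).trans (min_le_left _ _))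
  have hεb : ε ≤ 1 / 128 := (hB.e1.trans hε₁).trans ((min_le_left _ _).trans (min_le_right _ _))
  have hεc : ε ≤ 1 / (4 * K) := (hB.e1.trans hε₁).trans ((min_le_right _ _).trans (min_le_left _ _))
  have hεd : ε ≤ c₀ * ε' / (8 * K ^ 3) := (hB.e1.trans hε₁).trans ((min_le_right _ _).trans (min_le_right _ _))
  have hρ := hB.rho
  have hε0 := hB.e0
  have hk1 := hB.k1
  obtain ⟨i0, i1, iadd, idiff, ider, ider0, -, iinj⟩ := hITB f
  -- the level of the smallest derivative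
  obtain ⟨j₀, hj₀, hmin⟩ : ∃ j₀ ∈ Finset.range k, ∀ j ∈ Finset.range k, ‖deriv (it f j₀) w‖ ≤ ‖deriv (it f j) w‖ :=
    Finset.exists_min_image (Finset.range k) (fun j => ‖deriv (it f j) w‖) ⟨0, Finset.mem_range.2 (by omega)⟩
  rw [Finset.mem_range] at hj₀
  have hmin' : ∀ j < k, ‖deriv (it f j₀) w‖ ≤ ‖deriv (it f j) w‖ := fun j hj => hmin j (Finset.mem_range.2 hj)
  have hinjρ : ∀ j ≤ k, InjOn (it f j) (ball w ρ) := fun j hj => iinj _ j k hj hB.inj
  have hwρ : w ∈ ball w ρ := mem_ball_self hρ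
  set a : ℂ := deriv (it f j₀) w with ha
  have ha0 : a ≠ 0 := hKO0 (it f j₀) (ball w ρ) isOpen_ball (idiff j₀).differentiableOn (hinjρ j₀ hj₀.le) w hwρ
  have hapos : 0 < ‖a‖ := norm_pos_iff.2 ha0
  set w' : ℂ := it f j₀ w with hw'
  set ρ' : ℝ := ‖a‖ * ρ * c₀ / (4 * K) with hρ'
  have hρ'pos : 0 < ρ' := by positivity
  -- displacement of a point near w
  have hdisp : ∀ x ∈ ball w (c₀ * ρ / 2), ‖it f k x - x‖ ≤ 2 * ε * ρ := by
    intro x hx
    refine hB.hi x (ball_subset_ball ?_ hx)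
    nlinarith
  have hmove : ∀ x ∈ ball w (c₀ * ρ / 2), it f k x ∈ ball w (c₀ * ρ) := by
    intro x hx
    have h1 := hdisp x hx
    rw [mem_ball_iff_norm] at hx ⊢
    calc ‖it f k x - w‖ = ‖(it f k x - x) + (x - w)‖ := by congr 1; ring
      _ ≤ ‖it f k x - x‖ + ‖x - w‖ := norm_add_le _ _
      _ < 2 * ε * ρ + c₀ * ρ / 2 := by linarith
      _ ≤ c₀ * ρ := by nlinarith
  have hsub : ball w (c₀ * ρ) ⊆ ball w ρ := ball_subset_ball (by nlinarith)
  have hsub2 : ball w (c₀ * ρ / 2) ⊆ ball w (c₀ * ρ) := ball_subset_ball (by nlinarith)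
  -- the points of the new ball
  have hpre : ∀ z ∈ ball w' ρ', ∃ x ∈ ball w (c₀ * ρ / 2), it f j₀ x = z := by
    intro z hz
    have h1 := H1 (it f j₀) w (c₀ * ρ / 2) (by positivity) (idiff j₀).differentiableOn
      ((hinjρ j₀ hj₀.le).mono (hsub2.trans hsub))
    have h2 : z ∈ ball (it f j₀ w) (c₀ * ρ / 2 * ‖deriv (it f j₀) w‖ / K1) := by
      refine ball_subset_ball ?_ hz
      rw [← ha, hρ', div_le_div_iff₀ (by positivity) (by linarith)]
      have : ‖a‖ * ρ * c₀ * K1 ≤ ‖a‖ * ρ * c₀ * K := mul_le_mul_of_nonneg_left hK1K (by positivity)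
      nlinarith [mul_pos (mul_pos (mul_pos hapos hρ) hc₀) hKpos]
    obtain ⟨x, hx, hxz⟩ := h1 h2
    exact ⟨x, hx, hxz⟩
  have hcomm : ∀ x, it f k (it f j₀ x) = it f j₀ (it f k x) := by
    intro x
    rw [← iadd, ← iadd, add_comm]
  -- the derivative of f^k at w
  have hdk : 3 / 4 ≤ ‖deriv (it f k) w‖ := by
    have h1 := hB.de w (mem_ball_self (by positivity))
    have h2 : (1 : ℝ) ≤ ‖deriv (it f k) w‖ + ‖deriv (it f k) w - 1‖ := by
      calc (1 : ℝ) = ‖(1 : ℂ)‖ := by simp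
        _ = ‖deriv (it f k) w - (deriv (it f k) w - 1)‖ := by congr 1; ring
        _ ≤ _ := norm_sub_le _ _
    linarith
  have hKε : K * ε ≤ 1 / 4 := by
    have := mul_le_mul_of_nonneg_left hεc hKpos.le
    have h2 : K * (1 / (4 * K)) = 1 / 4 := by field_simp
    linarith
  have hwk : it f k w ∈ ball w ((1 - 1 / 2) * ρ) := by
    rw [mem_ball_iff_norm, hB.ctr]
    nlinarith
  refine ⟨w', ρ', hk1, hρ'pos, ?_, ?_, ?_, ?_, ?_⟩
  · -- inj
    intro z₁ hz₁ z₂ hz₂ he
    obtain ⟨x₁, hx₁, rfl⟩ := hpre z₁ hz₁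
    obtain ⟨x₂, hx₂, rfl⟩ := hpre z₂ hz₂
    rw [hcomm, hcomm] at he
    have h1 := hinjρ j₀ hj₀.le (hsub (hmove x₁ hx₁)) (hsub (hmove x₂ hx₂)) he
    have h2 := hB.inj (hsub (hsub2 hx₁)) (hsub (hsub2 hx₂)) h1
    rw [h2]
  · -- dj
    intro i hi j hj hij
    have hred : ∀ i < k, it f i '' ball w' (ρ' / (64 * K ^ 2 / c₀)) ⊆ it f ((i + j₀) % k) '' ball w (c₀ * ρ) := by
      rintro i hi _ ⟨z, hz, rfl⟩
      have hC1 : (1 : ℝ) ≤ 64 * K ^ 2 / c₀ := by
        rw [le_div_iff₀ hc₀]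
        nlinarith [sq_nonneg (K - 1)]
      have hz' : z ∈ ball w' ρ' := ball_subset_ball (div_le_self hρ'pos.le hC1) hz
      obtain ⟨x, hx, rfl⟩ := hpre z hz'
      rw [← iadd]
      by_cases hik : i + j₀ < k
      · rw [Nat.mod_eq_of_lt hik]
        exact ⟨x, hsub2 hx, rfl⟩
      · have h1 : (i + j₀) % k = i + j₀ - k := by
          rw [Nat.mod_eq_sub_mod (by omega), Nat.mod_eq_of_lt (by omega)]
        rw [h1]
        refine ⟨it f k x, hmove x hx, ?_⟩
        rw [← iadd]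
        congr 1
        omega
    have hne : (i + j₀) % k ≠ (j + j₀) % k := by
      intro h
      have h2 : i ≡ j [MOD k] := Nat.ModEq.add_right_cancel' j₀ h
      exact hij (Nat.ModEq.eq_of_lt_of_lt h2 hi hj)
    have hlt1 : (i + j₀) % k < k := Nat.mod_lt _ (by omega)
    have hlt2 : (j + j₀) % k < k := Nat.mod_lt _ (by omega)
    refine Disjoint.mono (hred i hi) (hred j hj) ?_
    rcases Nat.lt_or_gt_of_ne hne with h | h
    · exact hdj _ _ h hlt2
    · exact (hdj _ _ h hlt1).symm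
  · -- big
    intro j hj
    have h1 : deriv (it f (j + j₀)) w = deriv (it f j) w' * a := ider j j₀ w
    have h2 : ‖deriv (it f (j + j₀)) w‖ = ‖deriv (it f j) w'‖ * ‖a‖ := by rw [h1, norm_mul]
    have h3 : ‖a‖ / 2 ≤ ‖deriv (it f (j + j₀)) w‖ := by
      by_cases hjk : j + j₀ < k
      · have := hmin' _ hjk
        linarith
      · obtain ⟨q, hq⟩ : ∃ q, j + j₀ = q + k := ⟨j + j₀ - k, by omega⟩
        have hqk : q < k := by omega
        rw [hq, ider, norm_mul]
        have h4 := (H3 (it f q) w ρ hρ (idiff q).differentiableOn (hinjρ q hqk.le)).2 _ hwk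
        have h5 := h4.2.2.2
        rw [hB.ctr] at h5
        have h6 : ε * ρ / ρ = ε := by field_simp
        rw [h6] at h5
        have h7 : K3 * ε ≤ 1 / 4 := (mul_le_mul_of_nonneg_right hK3K hε0.le).trans hKε
        have h8 : ‖deriv (it f q) w‖ ≤ ‖deriv (it f q) (it f k w)‖ + ‖deriv (it f q) (it f k w) - deriv (it f q) w‖ := by
          calc ‖deriv (it f q) w‖ = ‖deriv (it f q) (it f k w) - (deriv (it f q) (it f k w) - deriv (it f q) w)‖ := by
                congr 1; ring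
            _ ≤ _ := norm_sub_le _ _
        have h9 : K3 * ε * ‖deriv (it f q) w‖ ≤ 1 / 4 * ‖deriv (it f q) w‖ :=
          mul_le_mul_of_nonneg_right h7 (norm_nonneg _)
        have h10 : 3 / 4 * ‖a‖ ≤ ‖deriv (it f q) (it f k w)‖ := by
          have := hmin' q hqk
          linarith
        have h11 : (3 / 4 * ‖a‖) * (3 / 4) ≤ ‖deriv (it f q) (it f k w)‖ * ‖deriv (it f k) w‖ :=
          mul_le_mul h10 hdk (by norm_num) (norm_nonneg _)
        linarith
    rw [h2] at h3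
    by_contra hcon
    push Not at hcon
    have : ‖deriv (it f j) w'‖ * ‖a‖ < 1 / 2 * ‖a‖ := mul_lt_mul_of_pos_right hcon hapos
    linarith
  · -- near
    intro z hz
    obtain ⟨x, hx, rfl⟩ := hpre z hz
    rw [hcomm]
    have hxw : ‖x - w‖ < c₀ * ρ / 2 := mem_ball_iff_norm.1 hx
    have hxρ : x ∈ ball w ((1 - 1 / 2) * ρ) := by
      rw [mem_ball_iff_norm]
      nlinarith
    have hsubx : ball x (ρ / 2) ⊆ ball w ρ := by
      intro y hy
      rw [mem_ball_iff_norm] at hy ⊢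
      calc ‖y - w‖ = ‖(y - x) + (x - w)‖ := by congr 1; ring
        _ ≤ ‖y - x‖ + ‖x - w‖ := norm_add_le _ _
        _ < ρ := by nlinarith
    have h1 := (H3 (it f j₀) w ρ hρ (idiff j₀).differentiableOn (hinjρ j₀ hj₀.le)).2 x hxρ
    have h2 := (H3 (it f j₀) x (ρ / 2) (by positivity) (idiff j₀).differentiableOn
      ((hinjρ j₀ hj₀.le).mono hsubx)).2 (it f k x) (by
        rw [mem_ball_iff_norm]
        have := hdisp x hx
        nlinarith)
    have h3 := h2.2.2.1
    have h4 := h1.1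
    have h5 := hdisp x hx
    have hK30 : 0 ≤ K3 := by linarith
    have h6 : ‖it f j₀ (it f k x) - it f j₀ x‖ ≤ K * (2 * ε * ρ) * (K * ‖a‖) := by
      refine h3.trans ?_
      refine mul_le_mul ?_ ?_ (norm_nonneg _) (by positivity)
      · exact mul_le_mul hK3K h5 (norm_nonneg _) hKpos.le
      · exact h4.trans (mul_le_mul_of_nonneg_right hK3K (norm_nonneg _))
    refine h6.trans ?_
    have h7 : ε * (8 * K ^ 3) ≤ c₀ * ε' := by
      rwa [le_div_iff₀ (by positivity)] at hεd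
    have h8 : K * (2 * ε * ρ) * (K * ‖a‖) = (ε * (8 * K ^ 3)) * (‖a‖ * ρ / (4 * K)) := by
      field_simp
      ring
    have h9 : ε' * ρ' = (c₀ * ε') * (‖a‖ * ρ / (4 * K)) := by
      rw [hρ']; ring
    rw [h8, h9]
    exact mul_le_mul_of_nonneg_right h7 (by positivity)
  · -- fail
    rintro ⟨hinj, hmaps⟩
    apply hB.maxi
    have hCρ : 64 * K ^ 2 / c₀ * ρ' = 16 * K * ‖a‖ * ρ := by
      rw [hρ']
      field_simp
      ring
    rw [hCρ] at hinj hmaps
    set u := it f (k - j₀) with hu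
    have hku : ∀ z, it f k z = it f j₀ (u z) := by
      intro z
      rw [hu, ← iadd]
      congr 1
      omega
    have huinj : InjOn u (ball w' (16 * K * ‖a‖ * ρ)) := iinj _ _ k (by omega) hinj
    have huw : u w' = it f k w := by
      rw [hu, hw', ← iadd]
      congr 1
      omega
    have hud : deriv (it f k) w = deriv u w' * a := by
      have h := ider (k - j₀) j₀ w
      have h2 : k - j₀ + j₀ = k := by omega
      rw [h2] at h
      exact h
    have hR : 0 < 16 * K * ‖a‖ * ρ / 2 := by positivity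
    have hsubR : ball w' (16 * K * ‖a‖ * ρ / 2) ⊆ ball w' (16 * K * ‖a‖ * ρ) :=
      ball_subset_ball (by linarith)
    have h1 := H1 u w' (16 * K * ‖a‖ * ρ / 2) hR (idiff _).differentiableOn (huinj.mono hsubR)
    have h2 : ball w (2 * ρ) ⊆ u '' ball w' (16 * K * ‖a‖ * ρ / 2) := by
      refine Subset.trans ?_ h1
      rw [huw]
      intro y hy
      rw [mem_ball_iff_norm] at hy ⊢
      have h3 : ‖y - it f k w‖ ≤ ‖y - w‖ + ‖it f k w - w‖ := by
        calc ‖y - it f k w‖ = ‖(y - w) - (it f k w - w)‖ := by congr 1; ring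
          _ ≤ _ := norm_sub_le _ _
      rw [hB.ctr] at h3
      have h4 : ‖deriv (it f k) w‖ = ‖deriv u w'‖ * ‖a‖ := by rw [hud, norm_mul]
      have h5 : 4 * ρ ≤ 16 * K * ‖a‖ * ρ / 2 * ‖deriv u w'‖ / K1 := by
        rw [le_div_iff₀ (by linarith)]
        have h6 : 16 * K * ‖a‖ * ρ / 2 * ‖deriv u w'‖ = 8 * K * ρ * ‖deriv (it f k) w‖ := by
          rw [h4]; ring
        rw [h6]
        have h7 : 8 * K * ρ * (3 / 4) ≤ 8 * K * ρ * ‖deriv (it f k) w‖ :=
          mul_le_mul_of_nonneg_left hdk (by positivity)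
        have h8 : 4 * ρ * K1 ≤ 4 * ρ * K := mul_le_mul_of_nonneg_left hK1K (by positivity)
        nlinarith [mul_pos hKpos hρ]
      nlinarith
    intro p hp p' hp' he
    obtain ⟨z, hz, rfl⟩ := h2 hp
    obtain ⟨z', hz', rfl⟩ := h2 hp'
    have hc : ∀ z, it f k (u z) = u (it f k z) := by
      intro z
      rw [hu, ← iadd, ← iadd, add_comm]
    rw [hc, hc] at he
    have h3 := huinj (hmaps hz) (hmaps hz') he
    have h4 := hinj (hsubR hz) (hsubR hz') h3
    rw [h4]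

end WPA
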